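import Pool.Agent.H314.BK.B1
import Pool.Agent.H314.BK.B2
import Pool.Agent.H314.BK.B3
import Pool.Agent.H314.BK.B4
import Pool.Agent.H314.BK.B5
import Pool.Agent.H314.BK.B6
import Pool.Agent.H314.BK.B7
import Pool.Agent.H314.BK.B8
import Pool.Agent.H314.BK.B9
import Pool.Agent.H314.BK.C1

set_option autoImplicit false

open MeasureTheory Complex Filter Topology
open scoped ContDiff InnerProductSpace ENNReal ComplexConjugate

namespace Pool.Agent.H645Z.NU

open BK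

section abstr
variable {n : ℕ} {H H2 : Type*} [NormedAddCommGroup H] [InnerProductSpace ℂ H] [CompleteSpace H]
  [NormedAddCommGroup H2] [InnerProductSpace ℂ H2] [CompleteSpace H2]

omit [CompleteSpace H] [CompleteSpace H2] in
/-- the basic estimate for closed forms in the domain of the adjoint -/
theorem basic_est (T : Submodule ℂ (H × FH n H)) (S : Submodule ℂ (FH n H × H2))
    (Z : Fin n → H →L[ℂ] H)
    (leib : ∀ (j : Fin n) f g, (f, g) ∈ T →
      (Z j f, (WithLp.toLp 2 (fun k => Z j (g k) + if k = j then f else 0) : FH n H)) ∈ T)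
    (km1 : ∀ u f, (u, (0 : H2)) ∈ S → AdjR T u f →
      ∃ α : Fin n → FH n H, (∀ j, (u j, α j) ∈ T) ∧ ∑ j, ‖α j‖ ^ 2 ≤ ‖f‖ ^ 2) :
    ∃ K : ℝ, 0 ≤ K ∧ ∀ u f, (u, (0 : H2)) ∈ S → AdjR T u f → ‖u‖ ≤ K * ‖f‖ := by
  refine ⟨∑ j, (n + 1) * ‖Z j‖, Finset.sum_nonneg fun j _ => by positivity, ?_⟩
  intro u f hu huf
  obtain ⟨α, hα, hle⟩ := km1 u f hu huf
  have hαj : ∀ j, ‖α j‖ ≤ ‖f‖ := by
    intro j
    have h1 : ‖α j‖ ^ 2 ≤ ∑ j, ‖α j‖ ^ 2 :=
      Finset.single_le_sum (f := fun j => ‖α j‖ ^ 2) (fun i _ => by positivity) (Finset.mem_univ j)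
    exact (pow_le_pow_iff_left₀ (norm_nonneg _) (norm_nonneg _) two_ne_zero).mp (h1.trans hle)
  have hj : ∀ j, ‖u j‖ ^ 2 ≤ (n + 1) * ‖Z j‖ * ‖f‖ * ‖u‖ := by
    intro j
    have h1 := huf _ (leib j (u j) (α j) (hα j))
    simp only at h1
    rw [PiLp.inner_apply] at h1
    have h2 : ∀ k, inner ℂ ((WithLp.toLp 2 (fun k => Z j (α j k) + if k = j then u j else 0) :
        FH n H) k) (u k) = inner ℂ (Z j (α j k)) (u k) +
          if k = j then inner ℂ (u j) (u j) else 0 := by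
      intro k
      show inner ℂ (Z j (α j k) + if k = j then u j else 0) (u k) = _
      rw [inner_add_left]
      by_cases hk : k = j
      · subst hk; simp
      · simp [hk]
    simp only [h2, Finset.sum_add_distrib, Finset.sum_ite_eq', Finset.mem_univ, if_true] at h1
    have h3 : inner ℂ (u j) (u j) = inner ℂ (Z j (u j)) f - ∑ k, inner ℂ (Z j (α j k)) (u k) := by
      rw [← h1]; ring
    have h4 : ‖u j‖ ^ 2 = ‖inner ℂ (u j) (u j)‖ := by
      rw [inner_self_eq_norm_sq_to_K]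
      simp
    have huk : ∀ k, ‖u k‖ ≤ ‖u‖ := fun k => PiLp.norm_apply_le u k
    have h5 : ‖inner ℂ (Z j (u j)) f‖ ≤ ‖Z j‖ * ‖f‖ * ‖u‖ := by
      calc ‖inner ℂ (Z j (u j)) f‖ ≤ ‖Z j (u j)‖ * ‖f‖ := norm_inner_le_norm _ _
        _ ≤ (‖Z j‖ * ‖u‖) * ‖f‖ := by
          apply mul_le_mul_of_nonneg_right _ (norm_nonneg _)
          exact ((Z j).le_opNorm _).trans (mul_le_mul_of_nonneg_left (huk j) (norm_nonneg _))
        _ = _ := by ring
    have h6 : ∀ k, ‖inner ℂ (Z j (α j k)) (u k)‖ ≤ ‖Z j‖ * ‖f‖ * ‖u‖ := by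
      intro k
      calc ‖inner ℂ (Z j (α j k)) (u k)‖ ≤ ‖Z j (α j k)‖ * ‖u k‖ := norm_inner_le_norm _ _
        _ ≤ (‖Z j‖ * ‖f‖) * ‖u‖ := by
          apply mul_le_mul _ (huk k) (norm_nonneg _) (by positivity)
          exact ((Z j).le_opNorm _).trans (mul_le_mul_of_nonneg_left
            ((PiLp.norm_apply_le (α j) k).trans (hαj j)) (norm_nonneg _))
    have h7 : ‖∑ k, inner ℂ (Z j (α j k)) (u k)‖ ≤ n * (‖Z j‖ * ‖f‖ * ‖u‖) := by
      refine (norm_sum_le _ _).trans ?_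
      calc ∑ k, ‖inner ℂ (Z j (α j k)) (u k)‖ ≤ ∑ _k : Fin n, ‖Z j‖ * ‖f‖ * ‖u‖ :=
            Finset.sum_le_sum fun k _ => h6 k
        _ = _ := by simp
    rw [h4, h3]
    refine (norm_sub_le _ _).trans ?_
    nlinarith
  have hs : ‖u‖ ^ 2 ≤ (∑ j, (n + 1) * ‖Z j‖) * ‖f‖ * ‖u‖ := by
    rw [PiLp.norm_sq_eq_of_L2, Finset.sum_mul, Finset.sum_mul]
    exact Finset.sum_le_sum fun j _ => hj j
  have hK : 0 ≤ (∑ j, (n + 1) * ‖Z j‖) * ‖f‖ :=
    mul_nonneg (Finset.sum_nonneg fun j _ => by positivity) (norm_nonneg _)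
  rcases (norm_nonneg u).eq_or_lt with h0 | h0
  · rw [← h0]; exact hK
  · nlinarith

/-- abstract existence -/
theorem abs_exist (T : Submodule ℂ (H × FH n H)) (S : Submodule ℂ (FH n H × H2))
    (hTc : IsClosed (T : Set (H × FH n H))) (hSc : IsClosed (S : Set (FH n H × H2)))
    (hTS : ∀ f g, (f, g) ∈ T → (g, (0 : H2)) ∈ S) (K : ℝ) (hK : 0 ≤ K)
    (est : ∀ u f, (u, (0 : H2)) ∈ S → AdjR T u f → ‖u‖ ≤ K * ‖f‖)
    (g : FH n H) (hg : (g, (0 : H2)) ∈ S) : ∃ f, (f, g) ∈ T := by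
  let S' : Submodule ℂ (FH n H × H2) := S ⊓ LinearMap.ker (LinearMap.snd ℂ (FH n H) H2)
  have hS' : ∀ u c, (u, c) ∈ S' ↔ (u, c) ∈ S ∧ c = 0 := fun u c => Iff.rfl
  have hS'c : IsClosed (S' : Set (FH n H × H2)) := by
    have : (S' : Set (FH n H × H2)) = (S : Set (FH n H × H2)) ∩ {q | q.2 = 0} := rfl
    rw [this]
    exact hSc.inter (isClosed_eq continuous_snd continuous_const)
  obtain ⟨f, G, C, h1, h2, h3, -⟩ := JB5.dual_abs T S' hTc hS'c
    (fun f g h => (hS' _ _).2 ⟨hTS f g h, rfl⟩) g ((K * ‖g‖) ^ 2) 0 (by positivity) le_rfl (by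
      intro u f c huf hc
      obtain ⟨hc1, hc2⟩ := (hS' _ _).1 hc
      subst hc2
      have e1 := est u f hc1 huf
      have e2 : ‖inner ℂ u g‖ ≤ K * ‖g‖ * ‖f‖ := by
        calc ‖inner ℂ u g‖ ≤ ‖u‖ * ‖g‖ := norm_inner_le_norm _ _
          _ ≤ K * ‖f‖ * ‖g‖ := mul_le_mul_of_nonneg_right e1 (norm_nonneg _)
          _ = _ := by ring
      rw [zero_mul, add_zero, ← mul_pow]
      exact pow_le_pow_left₀ (norm_nonneg _) e2 2)
  have hd : (G - g, (0 : H2)) ∈ S' := by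
    have := S'.sub_mem h2 ((hS' g 0).2 ⟨hg, rfl⟩)
    rwa [Prod.mk_sub_mk, sub_zero] at this
  have h4 := h3 _ hd
  have h5 : inner ℂ (G - g) (G - g) = 0 := by rw [inner_sub_right, h4, sub_self]
  have h6 : G = g := sub_eq_zero.1 (inner_self_eq_zero.1 h5)
  exact ⟨f, h6 ▸ h1⟩

end abstr

variable {n : ℕ}

theorem km1_of (Ω : Set (En n)) (ho : IsOpen Ω) (hb : Bornology.IsBounded Ω) (hP : PscS Ω) :
    KM1 Ω := by
  have hWE : WE Ω := JB9.we Ω ho hb hP
  have hTI : TI Ω := JB2.ti Ω ho (JB1.ki Ω ho)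
  have hDEN : DEN Ω := JB3.den Ω ho hb
  have hDK : DK Ω := JB7.lim Ω ho hb hWE (fun L ε φ ψ η hε hL hLΩ hW =>
    JB6.wd Ω ho hb L hL hLΩ ε hε φ ψ η hW (JB4.ap Ω ho hb hTI hDEN L hL hLΩ ε hε φ ψ η hW)
      (fun T S hTc hSc hTS g a b ha hb' hap => JB5.dual_abs T S hTc hSc hTS g a b ha hb' hap))
  exact (JB8.km_of_dk Ω ho hDK).1

open JC1 in
theorem leib_weak (Ω : Set (En n)) (Z : L2 Ω →L[ℂ] L2 Ω) (j : Fin n)
    (hZ : ∀ f : L2 Ω, Z f =ᵐ[(volume : Measure (En n)).restrict Ω] fun x => conj (x j) * f x)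
    (f : L2 Ω) (g : Form Ω) (hfg : IsDbar0 Ω f g) :
    IsDbar0 Ω (Z f) (WithLp.toLp 2 (fun k => Z (g k) + if k = j then f else 0)) := by
  intro k φ hφ
  have h1 := hfg k _ (co_test_mul hφ j)
  have h2 : ∫ x in Ω, f x * dbar k (fun x => conj (x j) * φ x) x =
      (∫ x in Ω, Z f x * dbar k φ x) + ∫ x in Ω, f x * (if k = j then φ x else 0) := by
    rw [← integral_add]
    · apply integral_congr_ae
      filter_upwards [hZ f] with x hx
      rw [hx, co_prod hφ.smooth]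
      ring
    · exact co_int _ (co_isTest_dbar hφ k)
    · by_cases hkj : k = j
      · simp only [if_pos hkj]
        exact co_int _ hφ
      · simp only [if_neg hkj, mul_zero]
        exact integrable_zero _ _ _
  have h3 : ∫ x in Ω, g k x * (conj (x j) * φ x) = ∫ x in Ω, Z (g k) x * φ x := by
    apply integral_congr_ae
    filter_upwards [hZ (g k)] with x hx
    rw [hx]
    ring
  have h4 : ∫ x in Ω, ((Z (g k) + if k = j then f else 0 : L2 Ω) : En n → ℂ) x * φ x =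
      (∫ x in Ω, Z (g k) x * φ x) + ∫ x in Ω, f x * (if k = j then φ x else 0) := by
    rw [← integral_add]
    · apply integral_congr_ae
      by_cases hkj : k = j
      · simp only [if_pos hkj]
        filter_upwards [Lp.coeFn_add (Z (g k)) f] with x hx
        rw [hx, Pi.add_apply]
        ring
      · simp only [if_neg hkj, add_zero, mul_zero]
        exact Filter.EventuallyEq.rfl
    · exact co_int _ hφ
    · by_cases hkj : k = j
      · simp only [if_pos hkj]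
        exact co_int _ hφ
      · simp only [if_neg hkj, mul_zero]
        exact integrable_zero _ _ _
  show ∫ x in Ω, Z f x * dbar k φ x =
    - ∫ x in Ω, ((Z (g k) + if k = j then f else 0 : L2 Ω) : En n → ℂ) x * φ x
  rw [h4]
  rw [h2, h3] at h1
  linear_combination h1

/-- Hörmander's existence theorem on a bounded pseudoconvex open set -/
theorem dbar_exist (Ω : Set (En n)) (ho : IsOpen Ω) (hb : Bornology.IsBounded Ω) (hP : PscS Ω)
    (g : Form Ω) (hg : IsDbar1 Ω g 0) : ∃ f : L2 Ω, IsDbar0 Ω f g := by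
  have hkm := km1_of Ω ho hb hP
  obtain ⟨T, hT, hTc⟩ := JC1.co_graph0 Ω
  obtain ⟨S, hS, hSc⟩ := JC1.co_graph1 Ω
  choose Z hZ using fun j => JC1.co_mulZ Ω ho hb j
  obtain ⟨K, hK, est⟩ := basic_est T S Z
    (fun j f g hfg => (hT _ _).2 (leib_weak Ω (Z j) j (hZ j) f g ((hT _ _).1 hfg)))
    (fun u f hu huf => by
      obtain ⟨α, hα, hle⟩ := hkm u f ((hS _ _).1 hu) (fun h g hg => huf (h, g) ((hT _ _).2 hg))
      exact ⟨α, fun j => (hT _ _).2 (hα j), hle⟩)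
  obtain ⟨f, hf⟩ := abs_exist T S hTc hSc
    (fun f g hfg => (hS _ _).2 (JC1.co_dbar_dbar Ω f g ((hT _ _).1 hfg))) K hK est g
    ((hS _ _).2 hg)
  exact ⟨f, (hT _ _).1 hf⟩

end Pool.Agent.H645Z.NU
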