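import Pool.Agent.H645Z.NU.Exist
import Pool.Agent.H314.BK.C2
import Pool.Agent.H922Z.NU.Defs

set_option autoImplicit false

open MeasureTheory Complex Filter Topology Metric Set
open scoped ContDiff InnerProductSpace ENNReal ComplexConjugate

namespace Pool.Agent.H645Z.NU

open BK

variable {n : ℕ}

theorem dbar_mul {f g : En n → ℂ} (hf : ContDiff ℝ ∞ f) (hg : ContDiff ℝ ∞ g) (j : Fin n)
    (x : En n) : dbar j (fun y => f y * g y) x = f x * dbar j g x + dbar j f x * g x := by
  have h1 : HasFDerivAt f (fderiv ℝ f x) x := ((hf.differentiable (by simp)) x).hasFDerivAt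
  have h2 : HasFDerivAt g (fderiv ℝ g x) x := ((hg.differentiable (by simp)) x).hasFDerivAt
  have h3 : HasFDerivAt (fun y => f y * g y) (f x • fderiv ℝ g x + g x • fderiv ℝ f x) x :=
    h1.mul h2
  unfold dbar
  rw [h3.fderiv]
  simp only [ContinuousLinearMap.add_apply, ContinuousLinearMap.smul_apply, smul_eq_mul]
  ring

theorem dbar_one_sub {f : En n → ℂ} (j : Fin n) (x : En n) :
    dbar j (fun y => 1 - f y) x = - dbar j f x := by
  unfold dbar
  rw [fderiv_const_sub]
  simp only [ContinuousLinearMap.neg_apply]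
  ring

theorem isTest_mono {U V : Set (En n)} {φ : En n → ℂ} (h : IsTest U φ) (hUV : U ⊆ V) :
    IsTest V φ := ⟨h.smooth, h.compact, h.supp.trans hUV⟩

theorem isTest_mul {U O C : Set (En n)} {φ θ : En n → ℂ} (h : IsTest U φ) (hθ : ContDiff ℝ ∞ θ)
    (hC : IsClosed C) (hs : ∀ x, x ∉ C → θ x = 0) (hO : U ∩ C ⊆ O) :
    IsTest O (fun x => θ x * φ x) := by
  refine ⟨hθ.mul h.smooth, h.compact.mul_left, ?_⟩
  have h1 : tsupport (fun x => θ x * φ x) ⊆ tsupport φ := tsupport_mul_subset_right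
  have h2 : tsupport (fun x => θ x * φ x) ⊆ C := by
    refine closure_minimal ?_ hC
    intro x hx
    by_contra hxC
    apply hx
    show θ x * φ x = 0
    rw [hs x hxC, zero_mul]
  exact fun x hx => hO ⟨h.supp (h1 hx), h2 hx⟩

theorem memLp_mul {U : Set (En n)} (hU : IsOpen U) (hb : Bornology.IsBounded U)
    {θ G : En n → ℂ} (hθ : Continuous θ) (hG : AEStronglyMeasurable G volume) {M : ℝ}
    (hM : ∀ x, ‖G x‖ ≤ M) : MemLp (fun x => θ x * G x) 2 ((volume : Measure (En n)).restrict U) := by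
  have hfin : (volume : Measure (En n)) U < ⊤ := hb.measure_lt_top
  haveI : IsFiniteMeasure ((volume : Measure (En n)).restrict U) :=
    ⟨by rw [Measure.restrict_apply_univ]; exact hfin⟩
  obtain ⟨C, hC⟩ := hb.isCompact_closure.exists_bound_of_continuousOn hθ.continuousOn
  refine MemLp.of_bound (hθ.aestronglyMeasurable.mul hG.restrict) (C * M) ?_
  filter_upwards [ae_restrict_mem hU.measurableSet] with x hx
  rw [norm_mul]
  have h1 := hC x (subset_closure hx)
  exact mul_le_mul h1 (hM x) (norm_nonneg _) ((norm_nonneg _).trans h1)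

/-- a weak solution gives a holomorphic function -/
theorem holo_piece {Ω U O C : Set (En n)} (hU : IsOpen U) (hb : Bornology.IsBounded Ω)
    (hUΩ : U ⊆ Ω) {G χ θ : En n → ℂ} (hG : AEStronglyMeasurable G volume) {M : ℝ}
    (hM : ∀ x, ‖G x‖ ≤ M)
    (key : ∀ ψ, IsTest O ψ → ∀ j, ∫ x, G x * dbar j ψ x = 0)
    (hχ : ContDiff ℝ ∞ χ) (hθ : ContDiff ℝ ∞ θ) (s : ℂ) (hs : ∀ j x, dbar j θ x = s * dbar j χ x)
    (hC : IsClosed C) (hθC : ∀ x, x ∉ C → θ x = 0) (hO : U ∩ C ⊆ O)
    (v : L2 Ω) (hv : ∀ j φ, IsTest Ω φ →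
      ∫ x, v x * dbar j φ x = - ∫ x, dbar j χ x * G x * φ x) :
    ∃ g : En n → ℂ, DifferentiableOn ℂ g U ∧
      ∀ᵐ x ∂((volume : Measure (En n)).restrict U), g x = θ x * G x - s * v x := by
  have hbU : Bornology.IsBounded U := hb.subset hUΩ
  have m1 := memLp_mul hU hbU hθ.continuous hG hM
  have m2 : MemLp (v : En n → ℂ) 2 ((volume : Measure (En n)).restrict U) :=
    (Lp.memLp v).mono_measure (Measure.restrict_mono hUΩ le_rfl)
  have m3 : MemLp (fun x => θ x * G x - s * v x) 2 ((volume : Measure (En n)).restrict U) :=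
    m1.sub (m2.const_mul s)
  have hw : IsDbar0 U (m3.toLp _) 0 := by
    intro j φ hφ
    have e0 : ∫ x in U, (0 : Form U) j x * φ x = 0 := JC1.co_coe_zero φ
    rw [e0, neg_zero]
    have hd := JC1.co_isTest_dbar hφ j
    have md : MemLp (dbar j φ) 2 ((volume : Measure (En n)).restrict U) :=
      hd.smooth.continuous.memLp_of_hasCompactSupport hd.compact
    have mφ : MemLp φ 2 ((volume : Measure (En n)).restrict U) :=
      hφ.smooth.continuous.memLp_of_hasCompactSupport hφ.compact
    have m4 := memLp_mul hU hbU (JB6.wd_dbar_smooth hχ j).continuous hG hM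
    have i1 : Integrable (fun x => θ x * G x * dbar j φ x)
        ((volume : Measure (En n)).restrict U) := m1.integrable_mul md
    have i2 : Integrable (fun x => v x * dbar j φ x)
        ((volume : Measure (En n)).restrict U) := m2.integrable_mul md
    have i3 : Integrable (fun x => dbar j χ x * G x * φ x)
        ((volume : Measure (En n)).restrict U) := m4.integrable_mul mφ
    have e1 : ∫ x in U, (m3.toLp _ : En n → ℂ) x * dbar j φ x =
        (∫ x in U, θ x * G x * dbar j φ x) - s * ∫ x in U, v x * dbar j φ x := by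
      rw [← integral_const_mul, ← integral_sub i1 (i2.const_mul s)]
      apply integral_congr_ae
      filter_upwards [m3.coeFn_toLp] with x hx
      rw [hx]
      ring
    have e2 : ∫ x in U, v x * dbar j φ x = - ∫ x in U, dbar j χ x * G x * φ x := by
      rw [JB6.wd_int_Ω hd, JB6.wd_int_Ω hφ]
      exact hv j φ (isTest_mono hφ hUΩ)
    have ht := isTest_mul hφ hθ hC hθC hO
    have htU : IsTest U (fun x => θ x * φ x) :=
      isTest_mul hφ hθ isClosed_univ (fun x hx => absurd (mem_univ x) hx) inter_subset_left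
    have e3 := key _ ht j
    rw [← JB6.wd_int_Ω (JC1.co_isTest_dbar htU j)] at e3
    have e4 : ∫ x in U, G x * dbar j (fun x => θ x * φ x) x =
        (∫ x in U, θ x * G x * dbar j φ x) + s * ∫ x in U, dbar j χ x * G x * φ x := by
      rw [← integral_const_mul, ← integral_add i1 (i3.const_mul s)]
      refine integral_congr_ae (Eventually.of_forall fun x => ?_)
      simp only
      rw [dbar_mul hθ hφ.smooth, hs]
      ring
    rw [e1, e2]
    rw [e4] at e3
    linear_combination e3
  obtain ⟨g, hg, hae⟩ := (JC2.weyl U hU hbU _).1 hw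
  refine ⟨g, hg, ?_⟩
  filter_upwards [hae, m3.coeFn_toLp] with x h1 h2
  rw [← h1, h2]

theorem t1 : Pool.Agent.H922Z.NU.T1 := by
  intro n Ω ho hb hP p r₁ r₂ h1 h12 H M hH hM
  set O : Set (En n) := Ω ∩ (ball p r₂ \ closedBall p r₁) with hOdef
  have hOo : IsOpen O := ho.inter (isOpen_ball.sdiff isClosed_closedBall)
  have hOb : Bornology.IsBounded O := hb.subset inter_subset_left
  obtain ⟨G, hGdef⟩ : ∃ G : En n → ℂ, G = O.indicator H := ⟨_, rfl⟩
  have hG : AEStronglyMeasurable G volume := by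
    rw [hGdef, aestronglyMeasurable_indicator_iff hOo.measurableSet]
    exact hH.continuousOn.aestronglyMeasurable hOo.measurableSet
  have hGM : ∀ x, ‖G x‖ ≤ max M 0 := by
    intro x
    rw [hGdef]
    by_cases hx : x ∈ O
    · rw [indicator_of_mem hx]; exact (hM x hx).trans (le_max_left _ _)
    · rw [indicator_of_notMem hx, norm_zero]; exact le_max_right _ _
  have hGi : Integrable (O.indicator H) := by
    rw [integrable_indicator_iff hOo.measurableSet]
    have hfin : (volume : Measure (En n)) O < ⊤ := hOb.measure_lt_top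
    haveI : IsFiniteMeasure ((volume : Measure (En n)).restrict O) :=
      ⟨by rw [Measure.restrict_apply_univ]; exact hfin⟩
    refine Integrable.of_bound (hH.continuousOn.aestronglyMeasurable hOo.measurableSet) M ?_
    filter_upwards [ae_restrict_mem hOo.measurableSet] with x hx
    exact hM x hx
  have key : ∀ ψ, IsTest O ψ → ∀ j, ∫ x, G x * dbar j ψ x = 0 := by
    intro ψ hψ j
    rw [← JB6.wd_int_Ω (JC1.co_isTest_dbar hψ j), ← JC2.int_dbar_zero O hOo H hH hGi ψ hψ j]
    apply setIntegral_congr_fun hOo.measurableSet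
    intro x hx
    show G x * _ = H x * _
    rw [hGdef, indicator_of_mem hx]
  obtain ⟨a, ha⟩ : ∃ a, a = r₁ + (r₂ - r₁) / 3 := ⟨_, rfl⟩
  obtain ⟨b, hb'⟩ : ∃ b, b = r₁ + 2 * (r₂ - r₁) / 3 := ⟨_, rfl⟩
  have ha1 : r₁ < a := by rw [ha]; linarith
  have hab : a < b := by rw [ha, hb']; linarith
  have hb2 : b < r₂ := by rw [hb']; linarith
  let bump : ContDiffBump p := ⟨a, b, h1.trans ha1, hab⟩
  obtain ⟨χ, hχdef⟩ : ∃ χ : En n → ℂ, χ = fun x => ((bump x : ℝ) : ℂ) := ⟨_, rfl⟩
  have hχ : ContDiff ℝ ∞ χ := by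
    rw [hχdef]
    exact Complex.ofRealCLM.contDiff.comp bump.contDiff
  have hχ1 : ∀ x ∈ ball p a, χ x = 1 := by
    intro x hx
    rw [hχdef]
    simp only
    rw [bump.one_of_mem_closedBall (ball_subset_closedBall hx)]
    simp
  have hχ0 : ∀ x, x ∉ closedBall p b → χ x = 0 := by
    intro x hx
    rw [hχdef]
    simp only
    rw [bump.zero_of_le_dist]
    · simp
    · rw [mem_closedBall, not_le] at hx
      exact hx.le
  have hdχ : ∀ j x, x ∉ closedBall p b \ ball p a → dbar j χ x = 0 := by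
    intro j x hx
    have hfd : fderiv ℝ χ x = 0 := by
      by_cases hxa : x ∈ ball p a
      · have : χ =ᶠ[𝓝 x] fun _ => 1 := by
          filter_upwards [isOpen_ball.mem_nhds hxa] with y hy using hχ1 y hy
        rw [this.fderiv_eq]
        simp
      · have hxb : x ∉ closedBall p b := fun h => hx ⟨h, hxa⟩
        have : χ =ᶠ[𝓝 x] fun _ => 0 := by
          filter_upwards [isClosed_closedBall.isOpen_compl.mem_nhds hxb] with y hy using hχ0 y hy
        rw [this.fderiv_eq]
        simp
    unfold dbar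
    rw [hfd]
    simp
  have mβ : ∀ j, MemLp (fun x => dbar j χ x * G x) 2 ((volume : Measure (En n)).restrict Ω) :=
    fun j => memLp_mul ho hb (JB6.wd_dbar_smooth hχ j).continuous hG hGM
  let β : Form Ω := WithLp.toLp 2 (fun j => (mβ j).toLp _)
  have hβ : ∀ j, (β j : En n → ℂ) =ᵐ[(volume : Measure (En n)).restrict Ω]
      fun x => dbar j χ x * G x := fun j => (mβ j).coeFn_toLp
  have hann : Ω ∩ (closedBall p b \ ball p a) ⊆ O := by
    rintro x ⟨hx, hx1, hx2⟩
    refine ⟨hx, closedBall_subset_ball hb2 hx1, fun h => hx2 (closedBall_subset_ball ha1 h)⟩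
  have hβc : IsDbar1 Ω β 0 := by
    intro q φ hφ
    have e0 : ∫ x in Ω, (0 : Form2 Ω) q x * φ x = 0 := JC1.co_coe_zero φ
    rw [e0, neg_zero]
    have ht : ∀ k, IsTest O (fun x => dbar k χ x * φ x) := fun k =>
      isTest_mul hφ (JB6.wd_dbar_smooth hχ k) (isClosed_closedBall.sdiff isOpen_ball) (hdχ k) hann
    have htΩ : ∀ k, IsTest Ω (fun x => dbar k χ x * φ x) := fun k =>
      isTest_mono (ht k) inter_subset_left
    have e1 : ∀ k j, ∫ x in Ω, G x * dbar j (fun x => dbar k χ x * φ x) x = 0 := by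
      intro k j
      rw [JB6.wd_int_Ω (JC1.co_isTest_dbar (htΩ k) j)]
      exact key _ (ht k) j
    have mG : MemLp G 2 ((volume : Measure (En n)).restrict Ω) := by
      simpa using memLp_mul ho hb (θ := fun _ => (1 : ℂ)) continuous_const hG hGM
    have i1 : ∀ k j, Integrable (fun x => G x * dbar j (fun x => dbar k χ x * φ x) x)
        ((volume : Measure (En n)).restrict Ω) := by
      intro k j
      have hd := JC1.co_isTest_dbar (htΩ k) j
      have md : MemLp (dbar j (fun x => dbar k χ x * φ x)) 2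
          ((volume : Measure (En n)).restrict Ω) :=
        hd.smooth.continuous.memLp_of_hasCompactSupport hd.compact
      exact mG.integrable_mul md
    have e2 := integral_sub (i1 q.1.2 q.1.1) (i1 q.1.1 q.1.2)
    rw [e1, e1, sub_zero] at e2
    rw [← e2]
    apply integral_congr_ae
    filter_upwards [hβ q.1.1, hβ q.1.2] with x hx1 hx2
    rw [hx1, hx2, dbar_mul (JB6.wd_dbar_smooth hχ _) hφ.smooth,
      dbar_mul (JB6.wd_dbar_smooth hχ _) hφ.smooth, JC1.co_dbar_comm hχ q.1.1 q.1.2]
    ring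
  obtain ⟨v, hv⟩ := dbar_exist Ω ho hb hP β hβc
  have hv' : ∀ j φ, IsTest Ω φ →
      ∫ x, v x * dbar j φ x = - ∫ x, dbar j χ x * G x * φ x := by
    intro j φ hφ
    rw [← JB6.wd_int_Ω (JC1.co_isTest_dbar hφ j), ← JB6.wd_int_Ω hφ, hv j φ hφ]
    congr 1
    apply integral_congr_ae
    filter_upwards [hβ j] with x hx
    rw [hx]
  have hA : IsOpen (Ω ∩ ball p r₂) := ho.inter isOpen_ball
  have hB : IsOpen (Ω \ closedBall p r₁) := ho.sdiff isClosed_closedBall
  obtain ⟨v₁, hv₁, a₁⟩ := holo_piece (O := O) (C := (ball p a)ᶜ) (θ := fun x => 1 - χ x) hA hb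
    inter_subset_left hG hGM key hχ (contDiff_const.sub hχ) (-1)
    (fun j x => by rw [dbar_one_sub]; ring) isOpen_ball.isClosed_compl
    (fun x hx => by rw [hχ1 x (notMem_compl_iff.1 hx), sub_self])
    (by
      rintro x ⟨⟨hx, hx1⟩, hx2⟩
      exact ⟨hx, hx1, fun h => hx2 (closedBall_subset_ball ha1 h)⟩) v hv'
  obtain ⟨v₂, hv₂, a₂⟩ := holo_piece (O := O) (C := closedBall p b) (θ := χ) hB hb
    diff_subset hG hGM key hχ hχ 1 (fun j x => by rw [one_mul]) isClosed_closedBall hχ0
    (by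
      rintro x ⟨⟨hx, hx1⟩, hx2⟩
      exact ⟨hx, closedBall_subset_ball hb2 hx2, hx1⟩) v hv'
  have hOA : O ⊆ Ω ∩ ball p r₂ := fun x hx => ⟨hx.1, hx.2.1⟩
  have hOB : O ⊆ Ω \ closedBall p r₁ := fun x hx => ⟨hx.1, hx.2.2⟩
  refine ⟨v₁, v₂, hv₁, hv₂, ?_⟩
  have hae : H =ᵐ[(volume : Measure (En n)).restrict O] fun x => v₁ x + v₂ x := by
    filter_upwards [ae_restrict_of_ae_restrict_of_subset hOA a₁,
      ae_restrict_of_ae_restrict_of_subset hOB a₂, ae_restrict_mem hOo.measurableSet] with x e1 e2 hx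
    rw [e1, e2, hGdef, indicator_of_mem hx]
    ring
  exact Measure.eqOn_open_of_ae_eq hae hOo hH.continuousOn
    ((hv₁.continuousOn.mono hOA).add (hv₂.continuousOn.mono hOB))

end Pool.Agent.H645Z.NU
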